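import Pool.Agent.Helper76.RD.Goals3

/-!
# Packet RF-DSQ: descent with protected pairs
-/

namespace Pool.Agent.Helper12.RD

open NumberField Polynomial Module IsDedekindDomain TensorProduct Pool.Agent.Helper51.SigLeo
open Pool.Agent.Helper51.RP Pool.Agent.Helper42.RD Pool.Agent.Helper76.RD

theorem d_dsq (h1 : Pool.Agent.Helper76.RD.D_DSA) (h2 : Pool.Agent.Helper76.RD.D_ORP)
    (h3 : Pool.Agent.Helper76.RD.D_PRO) : Pool.Agent.Helper76.RD.D_DSQ := by
  intro p _ k _ _ _ _ hne L K M _ _ _ _ _ _ _ m δ hord hfr n Q U hn hok P T hP R al hdat htriv hex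
  obtain ⟨ζ, Φ, hphi⟩ := hP.phi
  obtain ⟨𝔮, hq, hfree, hval, hdiv, hq2⟩ := h1 p k hne L K M m δ ζ Φ P hphi hord hfr hP.tor T
    hP.closed hP.card R al hdat hex
  obtain ⟨al', ha1, ha2⟩ := h2 p K M R al hdat 𝔮 hq hfree hval hdiv
  -- a good index
  obtain ⟨t, _, ht⟩ : ∃ t, t < p ∧ ∀ (j : Fin n) (x : Mˣ),
      SelD L (above (U j)) (Q j) δ (R ∪ {w | ConjP K w 𝔮}) (al' t) x → Pw p x := by
    by_contra hcon
    push Not at hcon
    choose j x hx1 hx2 using hcon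
    have hinj : Function.Injective fun t : Fin p => j t t.2 := by
      intro s t hst
      by_contra hne'
      have hst' : (s : ℕ) ≠ t := fun h => hne' (Fin.ext h)
      obtain ⟨ζ', Φ', hphi'⟩ := (hok (j s s.2)).phi
      have hst2 : j s s.2 = j t t.2 := hst
      have hb := hx1 t t.2
      rw [← hst2] at hb
      exact ha2 s t s.2 t.2 hst' (h3 p k L K M m δ ζ' Φ' (Q (j s s.2)) hphi' hord hfr
        (U (j s s.2)) R al hdat (htriv (j s s.2)) 𝔮 hq hfree (al' s) (al' t) (ha1 s).1 (ha1 t).1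
        (ha1 s).2 (ha1 t).2 ⟨x s s.2, hx1 s s.2, hx2 s s.2⟩ ⟨x t t.2, hb, hx2 t t.2⟩)
    have := Fintype.card_le_of_injective _ hinj
    rw [Fintype.card_fin, Fintype.card_fin] at this
    omega
  obtain ⟨hs1, hs2⟩ := hq2 (al' t) (ha1 t).1 (ha1 t).2
  exact ⟨R ∪ {w | ConjP K w 𝔮}, al' t, (ha1 t).1, ht, hs1, hs2⟩

end Pool.Agent.Helper12.RD
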